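import Pool.Agent.H83.FS.Stm

/-!
Friends-and-strangers graphs (project of helper83): `S_notwo` and `S_front`.
-/

set_option autoImplicit false

namespace Pool.Agent.H52.FS83

open SimpleGraph Pool.Agent.H83.FS

theorem notwo (h1 : S_two) (h2 : S_claw1) (h3 : S_link) : S_notwo := by
  intro V T _ _ Y col σ b b' s s' w w' hF hs hs' hss hww huw huw' hwv hwv' hA hA'
  obtain ⟨⟨hbb, hcb, hlk⟩, huv⟩ := hF
  obtain ⟨τ, hR, hfix, hw, hw'⟩ := h1 V T Y col (fun x => x ≠ σ b ∧ x ≠ σ b') (!(col b)) σ s s'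
    w w' hA hA' hss hww hs hs'
  have hb : τ.symm (σ b) = b := by
    rw [hfix (σ b) (fun h => h.1 rfl), Equiv.symm_apply_apply]
  have hb' : τ.symm (σ b') = b' := by
    rw [hfix (σ b') (fun h => h.2 rfl), Equiv.symm_apply_apply]
  have hpu : pc col τ (σ b) = col b := by unfold pc; rw [hb]
  have hpv : pc col τ (σ b') = col b' := by unfold pc; rw [hb']
  have h4 := h2 V T Y col τ (σ b) (σ b') w w' huv huw huw' hwv.symm hwv'.symm hww
    (by rw [hpu, hpv, hcb]) (by rw [hpu, hw]) (by rw [hpu, hw'])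
  rw [hb, hb'] at h4
  exact hlk ((h3 V T Y col).1 τ σ b b' hR.symm hcb h4)

theorem front (h : S_notwo) : S_front := by
  classical
  intro V T _ _ _ Y col σ b b' hF hIa hwh hatt
  obtain ⟨a, a', haa, ha, ha'⟩ := hwh
  have hF' := hF
  obtain ⟨⟨hbb, hcb, hlk⟩, huv⟩ := hF'
  have hpa : pc col σ (σ a) = !(col b) := by unfold pc; rw [Equiv.symm_apply_apply, ha]
  have hpa' : pc col σ (σ a') = !(col b) := by unfold pc; rw [Equiv.symm_apply_apply, ha']
  have hne : σ a ≠ σ a' := fun h => haa (σ.injective h)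
  obtain ⟨w, huw, hwv, hAw⟩ := hatt (σ a) hpa
  have hwu : w ≠ σ b := fun h => huw.ne h.symm
  -- all white vertices are connected to `w`
  have hall : ∀ s, pc col σ s = !(col b) → Av Y (σ b) (σ b') s w := by
    intro s hs
    by_cases hsa : s = σ a
    · rw [hsa]; exact hAw
    · obtain ⟨w₁, huw₁, hwv₁, hAw₁⟩ := hatt s hs
      by_cases hw : w₁ = w
      · rw [← hw]; exact hAw₁
      · exact (h V T Y col σ b b' (σ a) s w w₁ hF hpa hs (Ne.symm hsa) (Ne.symm hw) huw huw₁ hwv
          hwv₁ hAw hAw₁).elim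
  refine ⟨w, Finset.univ.filter (fun x => (x ≠ σ b ∧ x ≠ σ b') ∧ Av Y (σ b) (σ b') x w), huw,
    ?_, ?_, ?_, ?_, ?_, ?_⟩
  · rw [Finset.mem_filter]
    exact ⟨Finset.mem_univ _, ⟨hwu, hwv⟩, Cn.refl w⟩
  · rw [Finset.mem_filter]
    exact fun h => h.2.1.1 rfl
  · rw [Finset.mem_filter]
    exact fun h => h.2.1.2 rfl
  · intro x hx y hxy
    rw [Finset.mem_filter] at hx
    obtain ⟨-, hxP, hxw⟩ := hx
    by_cases hyu : y = σ b
    · right
      refine ⟨?_, hyu⟩
      by_contra hxne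
      have hux : Y.Adj (σ b) x := by rw [← hyu]; exact hxy.symm
      exact h V T Y col σ b b' (σ a) (σ a') w x hF hpa hpa' hne (Ne.symm hxne) huw hux hwv hxP.2
        hAw ((hall _ hpa').trans (Cn.symm hxw))
    · by_cases hyv : y = σ b'
      · exfalso
        apply hIa
        refine ⟨hF, σ a, w, x, hpa, huw, hwv, ?_, hxP.1, hAw, hAw.trans (Cn.symm hxw)⟩
        rw [← hyv]
        exact hxy.symm
      · left
        rw [Finset.mem_filter]
        exact ⟨Finset.mem_univ _, ⟨hyu, hyv⟩, (Cn.single hxy.symm ⟨hyu, hyv⟩ hxP).trans hxw⟩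
  · intro x hx
    rw [Finset.mem_filter] at hx
    obtain ⟨-, hxP, hxw⟩ := hx
    have h5 : Av Y (σ b) (σ b') w x := Cn.symm hxw
    clear hxw hxP
    unfold Av Cn at h5
    induction h5 with
    | refl => exact Cn.refl w
    | @tail y z h6 h7 ih =>
      obtain ⟨hyz, hyP, hzP⟩ := h7
      have hy : Av Y (σ b) (σ b') w y := h6
      have hz : Av Y (σ b) (σ b') w z := hy.trans (Cn.single hyz hyP hzP)
      refine ih.trans (Cn.single hyz ?_ ?_)
      · show y ∈ Finset.univ.filter _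
        rw [Finset.mem_filter]
        exact ⟨Finset.mem_univ _, hyP, Cn.symm hy⟩
      · show z ∈ Finset.univ.filter _
        rw [Finset.mem_filter]
        exact ⟨Finset.mem_univ _, hzP, Cn.symm hz⟩
  · intro s hs
    rw [Finset.mem_filter]
    refine ⟨Finset.mem_univ _, ⟨?_, ?_⟩, hall s hs⟩
    · rintro rfl
      unfold pc at hs
      rw [Equiv.symm_apply_apply] at hs
      exact (Bool.not_ne_self (col b)) hs.symm
    · rintro rfl
      unfold pc at hs
      rw [Equiv.symm_apply_apply, ← hcb] at hs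
      exact (Bool.not_ne_self (col b)) hs.symm

end Pool.Agent.H52.FS83
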